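import Pool.Agent.P.MP_d71b46_an.Main

/-! A Banach space in which a residual set of functionals attain their norm at two points of the
unit ball at distance two. -/

set_option autoImplicit false

open BoundedContinuousFunction Metric Set Filter Topology

namespace Pool.Agent.P.MP_d71b46_an.Ball

/-! ## From a family of vectors indexed by a tree to the residual set -/

section abstract

variable {M : Type} [Preorder M] {X : Type} [NormedAddCommGroup X] [NormedSpace ℝ X]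

/-- Functionals that attain their norm at two points at distance two. -/
def Good (X : Type) [NormedAddCommGroup X] [NormedSpace ℝ X] : Set (X →L[ℝ] ℝ) :=
  {f | ∃ y z : X, ‖y‖ ≤ 1 ∧ ‖z‖ ≤ 1 ∧ f y = ‖f‖ ∧ f z = ‖f‖ ∧ ‖y - z‖ = 2}

/-- A norming family of vectors indexed by a countably closed tree. -/
structure Data (M : Type) [Preorder M] (X : Type) [NormedAddCommGroup X] [NormedSpace ℝ X] where
  p : M → X
  norm_p : ∀ t, ‖p t‖ ≤ 1
  norming : ∀ (f : X →L[ℝ] ℝ) (c : ℝ), c < ‖f‖ → ∃ t, c < |f (p t)|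
  peak : ∀ t, ∃ E : X →L[ℝ] ℝ, ‖E‖ ≤ 1 ∧ (∀ s, t ≤ s → 3 / 5 ≤ E (p s)) ∧
    ∀ s, ¬ t ≤ s → |E (p s)| ≤ 1 / 5
  split : ∀ (f : X →L[ℝ] ℝ) (t : M) (α : ℝ), 0 < α → ∃ a b, t ≤ a ∧ t ≤ b ∧ ‖p a - p b‖ = 2 ∧
    (∀ s, a ≤ s → |f (p s) - f (p t)| ≤ α) ∧ |f (p b) - f (p t)| ≤ α
  bdd : ∀ t : ℕ → M, (∀ n m, ∃ s, t n ≤ s ∧ t m ≤ s) → ∃ b, ∀ n, t n ≤ b

theorem abs_le_norm (f : X →L[ℝ] ℝ) {x : X} (hx : ‖x‖ ≤ 1) : |f x| ≤ ‖f‖ :=
  (f.le_opNorm x).trans (mul_le_of_le_one_right (norm_nonneg _) hx)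

theorem exists_sign (a : ℝ) : ∃ σ : ℝ, |σ| = 1 ∧ σ * a = |a| := by
  rcases le_total 0 a with h | h
  · exact ⟨1, abs_one, by rw [one_mul, abs_of_nonneg h]⟩
  · exact ⟨-1, by simp, by rw [neg_one_mul, abs_of_nonpos h]⟩

/-- Functionals that are almost maximal exactly on a cone. -/
def Data.A (D : Data M X) (α : ℝ) : Set (X →L[ℝ] ℝ) :=
  {f | ∃ t δ, 0 < δ ∧ (∀ s, ¬ t ≤ s → |f (D.p s)| + δ ≤ ‖f‖) ∧
    ∀ s, t ≤ s → ‖f‖ ≤ |f (D.p s)| + α}

theorem Data.A_mem (D : Data M X) {α : ℝ} (hα : 0 < α) : D.A α ∈ residual (X →L[ℝ] ℝ) := by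
  refine mem_of_superset (residual_of_dense_open isOpen_interior ?_) interior_subset
  refine Metric.dense_iff.2 fun f r hr => ?_
  obtain ⟨ρ, hρ, hρr, hρα⟩ : ∃ ρ, 0 < ρ ∧ ρ < r ∧ ρ ≤ α :=
    ⟨min (r / 2) α, lt_min (half_pos hr) hα, (min_le_left _ _).trans_lt (half_lt_self hr),
      min_le_right _ _⟩
  obtain ⟨u, hu⟩ := D.norming f (‖f‖ - ρ / 40) (by linarith)
  obtain ⟨t, -, -, -, -, ht, -⟩ := D.split f u (ρ / 40) (by positivity)
  obtain ⟨E, hE, hE1, hE2⟩ := D.peak t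
  obtain ⟨σ, hσ, hσ'⟩ := exists_sign (f (D.p u))
  have hn : ‖(σ * ρ) • E‖ ≤ ρ := by
    rw [norm_smul, Real.norm_eq_abs, abs_mul, hσ, one_mul, abs_of_pos hρ]
    exact mul_le_of_le_one_right hρ.le hE
  refine ⟨f + (σ * ρ) • E, ?_, mem_interior_iff_mem_nhds.2 (mem_of_superset
    (closedBall_mem_nhds _ (show 0 < ρ / 40 by positivity)) fun h hh => ?_)⟩
  · rw [mem_ball, dist_eq_norm, add_sub_cancel_left]
    exact hn.trans_lt hρr
  rw [mem_closedBall, dist_eq_norm] at hh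
  have h1 : ∀ s, |h (D.p s) - (f (D.p s) + σ * ρ * E (D.p s))| ≤ ρ / 40 := fun s => by
    simpa using (abs_le_norm _ (D.norm_p s)).trans hh
  have h2 : ∀ s, t ≤ s → ‖f‖ + 3 * ρ / 5 - 3 * (ρ / 40) ≤ |h (D.p s)| := fun s hs => by
    have a1 := le_abs_self (σ * h (D.p s))
    have a2 := neg_abs_le (σ * (h (D.p s) - (f (D.p s) + σ * ρ * E (D.p s))))
    have a3 := neg_abs_le (σ * (f (D.p s) - f (D.p u)))
    rw [abs_mul, hσ, one_mul] at a1 a2 a3
    have a4 : σ * σ = 1 := by rw [← abs_mul_abs_self, hσ, one_mul]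
    have a5 := mul_le_mul_of_nonneg_left (hE1 s hs) hρ.le
    have a6 : σ * h (D.p s) = σ * (h (D.p s) - (f (D.p s) + σ * ρ * E (D.p s))) +
        σ * (f (D.p s) - f (D.p u)) + σ * f (D.p u) + ρ * E (D.p s) := by
      linear_combination (ρ * E (D.p s)) * a4
    linarith [h1 s, ht s hs]
  have h3 : ‖h‖ ≤ ‖f‖ + ρ + ρ / 40 := by
    have a1 := norm_le_insert' h (f + (σ * ρ) • E)
    have a2 := norm_add_le f ((σ * ρ) • E)
    linarith
  refine ⟨t, 3 * ρ / 10, by positivity, fun s hs => ?_, fun s hs => by linarith [h2 s hs]⟩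
  have a1 := (h2 t le_rfl).trans (abs_le_norm h (D.norm_p t))
  have a2 := abs_le_norm f (D.norm_p s)
  have a3 : |σ * ρ * E (D.p s)| ≤ ρ / 5 := by
    rw [abs_mul, abs_mul, hσ, one_mul, abs_of_pos hρ]
    linarith [mul_le_mul_of_nonneg_left (hE2 s hs) hρ.le]
  have a4 := abs_add_le (f (D.p s)) (σ * ρ * E (D.p s))
  have a5 := abs_sub_abs_le_abs_sub (h (D.p s)) (f (D.p s) + σ * ρ * E (D.p s))
  linarith [h1 s]

theorem Data.good (D : Data M X) : Good X ∈ residual (X →L[ℝ] ℝ) := by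
  refine mem_of_superset (countable_iInter_mem.2 fun n : ℕ =>
    D.A_mem (Nat.one_div_pos_of_nat (n := n))) fun f hf => ?_
  choose t δ hδ h1 h2 using mem_iInter.1 hf
  obtain ⟨b, hb⟩ := D.bdd t fun n m => by
    obtain ⟨s, hs⟩ := D.norming f (‖f‖ - min (δ n) (δ m)) (by linarith [lt_min (hδ n) (hδ m)])
    refine ⟨s, by_contra fun h => ?_, by_contra fun h => ?_⟩
    · linarith [h1 n s h, min_le_left (δ n) (δ m)]
    · linarith [h1 m s h, min_le_right (δ n) (δ m)]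
  have h3 : ∀ s, b ≤ s → |f (D.p s)| = ‖f‖ := fun s hs => by
    refine (abs_le_norm f (D.norm_p s)).antisymm (le_of_forall_pos_le_add fun ε hε => ?_)
    obtain ⟨n, hn⟩ := exists_nat_one_div_lt hε
    linarith [h2 n s ((hb n).trans hs)]
  obtain ⟨α, hα, h4⟩ : ∃ α, 0 < α ∧ ∀ s, b ≤ s → |f (D.p s) - f (D.p b)| ≤ α →
      f (D.p s) = f (D.p b) := by
    rcases (norm_nonneg f).eq_or_lt with h | h
    · exact ⟨1, one_pos, fun s hs _ => by rw [norm_eq_zero.1 h.symm]; rfl⟩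
    · refine ⟨‖f‖, h, fun s hs hs' => ?_⟩
      rcases abs_eq_abs.1 ((h3 s hs).trans (h3 b le_rfl).symm) with e | e
      · exact e
      · rw [e, ← neg_add', abs_neg, ← two_mul, abs_mul, h3 b le_rfl, abs_two] at hs'
        linarith
  obtain ⟨a, c, ha, hc, hac, ha', hc'⟩ := D.split f b α hα
  have e1 := h4 a ha (ha' a le_rfl)
  have e2 := h4 c hc hc'
  rcases (abs_eq (norm_nonneg f)).1 (h3 b le_rfl) with e | e
  · exact ⟨D.p a, D.p c, D.norm_p a, D.norm_p c, e1.trans e, e2.trans e, hac⟩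
  · refine ⟨-D.p a, -D.p c, (norm_neg _).trans_le (D.norm_p a),
      (norm_neg _).trans_le (D.norm_p c), by rw [map_neg, e1, e, neg_neg],
      by rw [map_neg, e2, e, neg_neg], by rw [neg_sub_neg, norm_sub_rev, hac]⟩

theorem not_dent (h : Dense (Good X)) :
    ∀ x ∈ closedBall (0 : X) 1, x ∈ closure (convexHull ℝ (closedBall (0 : X) 1 \ ball x 1)) := by
  intro x hx
  by_contra hcon
  obtain ⟨f, c, hf1, hf2⟩ := geometric_hahn_banach_closed_point
    (convex_convexHull ℝ _).closure isClosed_closure hcon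
  obtain ⟨g, hg, y, z, hy, hz, ey, ez, hyz⟩ := Metric.dense_iff.1 h f ((f x - c) / 2) (by linarith)
  rw [mem_ball, dist_eq_norm] at hg
  have key : ∀ w, ‖w‖ ≤ 1 → g w = ‖g‖ → ‖w - x‖ < 1 := fun w hw ew => by
    by_contra hn
    have a1 := hf1 w (subset_closure (subset_convexHull _ _
      ⟨mem_closedBall_zero_iff.2 hw, fun hb => hn (mem_ball_iff_norm.1 hb)⟩))
    have a2 := abs_le.1 (abs_le_norm (g - f) hw)
    have a3 := abs_le.1 (abs_le_norm (g - f) (mem_closedBall_zero_iff.1 hx))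
    have a4 := abs_le.1 (abs_le_norm g (mem_closedBall_zero_iff.1 hx))
    rw [_root_.sub_apply] at a2 a3
    linarith [a2.2, a3.1, a4.2]
  have := norm_sub_le (y - x) (z - x)
  rw [sub_sub_sub_cancel_right] at this
  linarith [key y hy ey, key z hz ez]

end abstract

/-! ## The Banach space normed by a set of linear functionals -/

/-- The space `X` is the completion of `V` for the norm given by the functionals in `Φ`. -/
structure Sp {V : Type} [AddCommGroup V] [Module ℝ V] (Φ : Set (V →ₗ[ℝ] ℝ)) {X : Type}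
    [NormedAddCommGroup X] [NormedSpace ℝ X] (j : V →ₗ[ℝ] X) : Prop where
  dense : DenseRange j
  ext : ∀ φ ∈ Φ, ∃ E : X →L[ℝ] ℝ, ‖E‖ ≤ 1 ∧ ∀ v, E (j v) = φ v
  le : ∀ v c, 0 ≤ c → (∀ φ ∈ Φ, |φ v| ≤ c) → ‖j v‖ ≤ c

theorem exists_sp {V : Type} [AddCommGroup V] [Module ℝ V] (Φ : Set (V →ₗ[ℝ] ℝ))
    (hb : ∀ v, ∃ C, ∀ φ ∈ Φ, |φ v| ≤ C) :
    ∃ (X : Type) (_ : NormedAddCommGroup X) (_ : NormedSpace ℝ X) (_ : CompleteSpace X)
      (j : V →ₗ[ℝ] X), Sp Φ j := by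
  let _ : TopologicalSpace Φ := ⊥
  have : DiscreteTopology Φ := ⟨rfl⟩
  choose C hC using hb
  let J : V →ₗ[ℝ] (Φ →ᵇ ℝ) :=
    { toFun := fun v => ofNormedAddCommGroupDiscrete (fun φ => φ.1 v) (C v) fun φ => hC v φ.1 φ.2
      map_add' := fun v w => by ext φ; simp
      map_smul' := fun a v => by ext φ; simp }
  refine ⟨(LinearMap.range J).topologicalClosure, inferInstance, inferInstance, inferInstance,
    J.codRestrict _ fun v => Submodule.le_topologicalClosure _ (LinearMap.mem_range_self J v),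
    ?_, fun φ hφ => ⟨(evalCLM ℝ (⟨φ, hφ⟩ : Φ)).comp (Submodule.subtypeL _), ?_, fun v => rfl⟩,
    fun v c hc h => (norm_le hc).2 fun φ => h φ.1 φ.2⟩
  · refine Subtype.dense_iff.2 (closure_mono ?_)
    rintro _ ⟨v, rfl⟩
    exact ⟨_, mem_range_self v, rfl⟩
  · refine ContinuousLinearMap.opNorm_le_bound _ zero_le_one fun x => ?_
    rw [one_mul]
    exact x.1.norm_coe_le_norm _

/-! ## The labelled forest -/

section cons

variable {M : Type} [Preorder M]

open Classical in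
/-- The sum of the coefficients over the cone above `u`. -/
noncomputable def ev (u : M) : (M →₀ ℝ) →ₗ[ℝ] ℝ :=
  Finsupp.linearCombination ℝ fun t => if u ≤ t then (1 : ℝ) else 0

/-- The unit vector of a node. -/
noncomputable def e (t : M) : M →₀ ℝ := Finsupp.single t 1

theorem ev_of_le {u t : M} (h : u ≤ t) : ev u (e t) = 1 := by simp [ev, e, h]

theorem ev_of_not {u t : M} (h : ¬ u ≤ t) : ev u (e t) = 0 := by simp [ev, e, h]

theorem ev_eq_zero {u : M} {v : M →₀ ℝ} (h : ∀ t ∈ v.support, ¬ u ≤ t) : ev u v = 0 := by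
  rw [ev, Finsupp.linearCombination_apply]
  exact Finset.sum_eq_zero fun t ht => by simp [h t ht]

/-- The unit ball of the auxiliary norm. -/
def Q (v : M →₀ ℝ) : Prop := ∀ u, |ev u v| ≤ 1

theorem Q_e (t : M) : Q (e t) := fun u => by
  by_cases h : u ≤ t
  · rw [ev_of_le h, abs_one]
  · rw [ev_of_not h, abs_zero]
    exact zero_le_one

/-- A labelling of the trees of a forest by all vectors of the auxiliary ball. -/
structure Lab (M : Type) [Preorder M] where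
  x : M → M →₀ ℝ
  q : ∀ t, Q (x t)
  eq : ∀ s t, s ≤ t → x s = x t
  all : ∀ v, Q v → ∃ t : ℕ → M, (∀ i, x (t i) = v) ∧ ∀ i k u, u ≤ t i → u ≤ t k → i = k

/-- The norming vectors. -/
noncomputable def Lab.p (L : Lab M) (t : M) : M →₀ ℝ := e t + (1 / 4 : ℝ) • L.x t

/-- The norming functionals. -/
def Lab.Φ (L : Lab M) : Set ((M →₀ ℝ) →ₗ[ℝ] ℝ) :=
  {φ | (∀ t, |φ (L.p t)| ≤ 1) ∧ ∀ v, Q v → |φ v| ≤ 4}

theorem Lab.apply_p (L : Lab M) {Y : Type} [AddCommGroup Y] [Module ℝ Y]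
    (φ : (M →₀ ℝ) →ₗ[ℝ] Y) (t : M) : φ (L.p t) = φ (e t) + (1 / 4 : ℝ) • φ (L.x t) := by
  rw [Lab.p, map_add, map_smul]

theorem Lab.bound (L : Lab M) (v : M →₀ ℝ) : ∃ C, ∀ φ ∈ L.Φ, |φ v| ≤ C := by
  induction v using Finsupp.induction_linear with
  | zero => exact ⟨0, fun φ _ => by simp⟩
  | add v w hv hw =>
    obtain ⟨C, hC⟩ := hv
    obtain ⟨C', hC'⟩ := hw
    exact ⟨C + C', fun φ hφ => by
      rw [map_add]
      exact (abs_add_le _ _).trans (add_le_add (hC φ hφ) (hC' φ hφ))⟩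
  | single t a =>
    refine ⟨|a| * 4, fun φ hφ => ?_⟩
    rw [← Finsupp.smul_single_one, map_smul, smul_eq_mul, abs_mul]
    exact mul_le_mul_of_nonneg_left (hφ.2 _ (Q_e t)) (abs_nonneg a)

variable {L : Lab M} {X : Type} [NormedAddCommGroup X] [NormedSpace ℝ X] {j : (M →₀ ℝ) →ₗ[ℝ] X}

/-- Disjointly supported vectors form a weakly null sequence. -/
theorem c0 (S : Sp L.Φ j) (f : X →L[ℝ] ℝ) (y : ℕ → M →₀ ℝ) (h1 : ∀ i, Q (y i))
    (h2 : ∀ u i k, ev u (y i) ≠ 0 → ev u (y k) ≠ 0 → i = k) {α : ℝ} (hα : 0 < α) :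
    {i | α < |f (j (y i))|}.Finite := by
  by_contra hinf
  obtain ⟨n, hn⟩ := exists_nat_gt (‖f‖ * 4 / α)
  rw [div_lt_iff₀ hα] at hn
  obtain ⟨s, hs, hc⟩ := Set.Infinite.exists_subset_card_eq hinf n
  choose σ hσ hσ' using fun i => exists_sign (f (j (y i)))
  have hq : Q (∑ i ∈ s, σ i • y i) := fun u => by
    simp only [map_sum, map_smul, smul_eq_mul]
    by_cases h : ∃ i ∈ s, ev u (y i) ≠ 0
    · obtain ⟨i, hi, h0⟩ := h
      rw [Finset.sum_eq_single_of_mem i hi fun k _ hk => by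
        rw [of_not_not fun h => hk (h2 u k i h h0), mul_zero], abs_mul, hσ, one_mul]
      exact h1 i u
    · push Not at h
      rw [Finset.sum_eq_zero fun i hi => by rw [h i hi, mul_zero], abs_zero]
      exact zero_le_one
  have a1 := S.le _ 4 (by norm_num) fun φ hφ => hφ.2 _ hq
  have a2 := (le_abs_self _).trans ((f.le_opNorm _).trans
    (mul_le_mul_of_nonneg_left a1 (norm_nonneg f)))
  simp only [map_sum, map_smul, smul_eq_mul, hσ'] at a2
  have a3 := Finset.card_nsmul_le_sum s (fun i => |f (j (y i))|) α fun i hi => (hs hi).le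
  rw [hc, nsmul_eq_mul] at a3
  linarith

theorem norming (S : Sp L.Φ j) (f : X →L[ℝ] ℝ) (c : ℝ) (hc : c < ‖f‖) :
    ∃ t, c < |f (j (L.p t))| := by
  by_contra hcon
  push Not at hcon
  have h1 : ∀ v, Q v → |f (j v)| ≤ 4 * c := fun v hv => by
    obtain ⟨t, ht, ht'⟩ := L.all v hv
    refine le_of_forall_pos_le_add fun ε hε => ?_
    obtain ⟨i, hi⟩ := (c0 S f (fun i => e (t i)) (fun i => Q_e _) (fun u i k a b => ht' i k u
      (of_not_not fun h => a (ev_of_not h)) (of_not_not fun h => b (ev_of_not h)))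
      (show 0 < ε / 4 by positivity)).exists_notMem
    have a1 := abs_le.1 (not_lt.1 (show ¬ ε / 4 < |f (j (e (t i)))| from hi))
    have a2 := abs_le.1 (hcon (t i))
    rw [L.apply_p, ht, map_add, map_smul, smul_eq_mul] at a2
    rw [abs_le]
    constructor <;> linarith [a1.1, a1.2, a2.1, a2.2]
  have h0 : 0 ≤ c := by
    have := h1 0 fun u => by simp
    simp only [map_zero, abs_zero] at this
    linarith
  obtain ⟨d, hd, hd'⟩ := exists_between hc
  have hd0 : 0 < d := h0.trans_lt hd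
  have h2 : ∀ v a, |f (j v)| ≤ a * d → |(d⁻¹ • (f : X →ₗ[ℝ] ℝ) ∘ₗ j) v| ≤ a := fun v a h => by
    change |d⁻¹ * f (j v)| ≤ a
    rwa [abs_mul, abs_of_pos (inv_pos.2 hd0), inv_mul_le_iff₀ hd0, mul_comm]
  obtain ⟨E, hE, hE'⟩ := S.ext (d⁻¹ • (f : X →ₗ[ℝ] ℝ) ∘ₗ j)
    ⟨fun t => h2 _ _ (by linarith [hcon t]), fun v hv => h2 _ _ (by linarith [h1 v hv])⟩
  have : f = d • E := by
    refine ContinuousLinearMap.ext fun x => S.dense.induction_on x
      (isClosed_eq f.continuous (d • E).continuous) fun v => ?_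
    rw [_root_.smul_apply, hE']
    change _ = d * (d⁻¹ * f (j v))
    rw [mul_inv_cancel_left₀ hd0.ne']
  rw [this, norm_smul, Real.norm_of_nonneg hd0.le] at hd'
  exact absurd (mul_le_of_le_one_right hd0.le hE) (not_le.2 hd')

theorem peak (S : Sp L.Φ j) (t : M) : ∃ E : X →L[ℝ] ℝ, ‖E‖ ≤ 1 ∧
    (∀ s, t ≤ s → 3 / 5 ≤ E (j (L.p s))) ∧ ∀ s, ¬ t ≤ s → |E (j (L.p s))| ≤ 1 / 5 := by
  have h0 : ∀ v, ((4 / 5 : ℝ) • ev t) v = 4 / 5 * ev t v := fun v => rfl
  have h1 : ∀ s, t ≤ s → 3 / 5 ≤ ((4 / 5 : ℝ) • ev t) (L.p s) ∧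
      ((4 / 5 : ℝ) • ev t) (L.p s) ≤ 1 := fun s hs => by
    have := abs_le.1 (L.q s t)
    rw [h0, L.apply_p, ev_of_le hs, smul_eq_mul]
    constructor <;> linarith [this.1, this.2]
  have h2 : ∀ s, ¬ t ≤ s → |((4 / 5 : ℝ) • ev t) (L.p s)| ≤ 1 / 5 := fun s hs => by
    have := abs_le.1 (L.q s t)
    rw [h0, L.apply_p, ev_of_not hs, smul_eq_mul, abs_le]
    constructor <;> linarith [this.1, this.2]
  obtain ⟨E, hE, hE'⟩ := S.ext ((4 / 5 : ℝ) • ev t) ⟨fun s => by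
      by_cases hs : t ≤ s
      · exact abs_le.2 ⟨by linarith [(h1 s hs).1], (h1 s hs).2⟩
      · linarith [h2 s hs], fun v hv => by
      have := abs_le.1 (hv t)
      rw [h0, abs_le]
      constructor <;> linarith [this.1, this.2]⟩
  exact ⟨E, hE, fun s hs => hE' _ ▸ (h1 s hs).1, fun s hs => hE' _ ▸ h2 s hs⟩

theorem norm_p (S : Sp L.Φ j) (t : M) : ‖j (L.p t)‖ ≤ 1 :=
  S.le _ 1 zero_le_one fun _ hφ => hφ.1 t

theorem far (S : Sp L.Φ j) {t a b : M} (ha : t ≤ a) (hb : t ≤ b) (hab : ¬ a ≤ b) (hba : ¬ b ≤ a)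
    (ha' : ev a (L.x t) = 0) (hb' : ev b (L.x t) = 0) : ‖j (L.p a) - j (L.p b)‖ = 2 := by
  have h1 : ∀ s, t ≤ s → (ev a - ev b) (L.p s) = ev a (e s) - ev b (e s) := fun s hs => by
    rw [LinearMap.sub_apply, L.apply_p, L.apply_p, ← L.eq t s hs, ha', hb', smul_zero, add_zero,
      add_zero]
  obtain ⟨E, hE, hE'⟩ := S.ext (ev a - ev b) ⟨fun s => by
      by_cases hs : t ≤ s
      · rw [h1 s hs]
        by_cases h : a ≤ s <;> by_cases h' : b ≤ s <;> simp [ev_of_le, ev_of_not, h, h']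
      · have a1 := abs_le.1 (L.q s a)
        have a2 := abs_le.1 (L.q s b)
        rw [LinearMap.sub_apply, L.apply_p, L.apply_p, ev_of_not fun h => hs (ha.trans h),
          ev_of_not fun h => hs (hb.trans h), smul_eq_mul, smul_eq_mul, abs_le]
        constructor <;> linarith [a1.1, a1.2, a2.1, a2.2], fun v hv => by
      have a1 := abs_le.1 (hv a)
      have a2 := abs_le.1 (hv b)
      rw [LinearMap.sub_apply, abs_le]
      constructor <;> linarith [a1.1, a1.2, a2.1, a2.2]⟩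
  have a1 := (le_abs_self _).trans ((E.le_opNorm (j (L.p a) - j (L.p b))).trans
    (mul_le_of_le_one_left (norm_nonneg _) hE))
  rw [map_sub, hE', hE', h1 a ha, h1 b hb, ev_of_le le_rfl, ev_of_le le_rfl, ev_of_not hab,
    ev_of_not hba] at a1
  linarith [norm_sub_le (j (L.p a)) (j (L.p b)), norm_p S a, norm_p S b]

theorem split (T : TreeData M) (S : Sp L.Φ j) (f : X →L[ℝ] ℝ) (t : M) (α : ℝ) (hα : 0 < α) :
    ∃ a b, t ≤ a ∧ t ≤ b ∧ ‖j (L.p a) - j (L.p b)‖ = 2 ∧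
      (∀ s, a ≤ s → |f (j (L.p s)) - f (j (L.p t))| ≤ α) ∧
      |f (j (L.p b)) - f (j (L.p t))| ≤ α := by
  have one : ∀ i k u, T.sc t i ≤ u → T.sc t k ≤ u → i = k := fun i k u hi hk =>
    of_not_not fun h => T.not_sc_le t i (T.disj t i k u u _ h hi hk hi hi)
  have hs : ∀ i, ∃ s, T.sc t i ≤ s ∧ (|f (j (e s - e t))| ≤ α →
      ∀ s', T.sc t i ≤ s' → |f (j (e s' - e t))| ≤ α) := fun i => by
    by_cases h : ∀ s', T.sc t i ≤ s' → |f (j (e s' - e t))| ≤ α
    · exact ⟨_, le_rfl, fun _ => h⟩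
    · push Not at h
      obtain ⟨s, h1, h2⟩ := h
      exact ⟨s, h1, fun h => absurd h (not_le.2 h2)⟩
  choose s hs hs' using hs
  have h0 : ∀ u i, ev u (e (s i) - e t) ≠ 0 → u ≤ s i ∧ ¬ u ≤ t := fun u i h => by
    have a : ¬ u ≤ t := fun a => h (by
      rw [map_sub, ev_of_le a, ev_of_le (a.trans ((T.le_sc t i).trans (hs i))), sub_self])
    exact ⟨of_not_not fun b => h (by rw [map_sub, ev_of_not a, ev_of_not b, sub_self]), a⟩
  have f1 := c0 S f (fun i => e (s i) - e t) (fun i u => by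
      by_cases h : ev u (e (s i) - e t) = 0
      · rw [h, abs_zero]
        exact zero_le_one
      · rw [map_sub, ev_of_le (h0 u i h).1, ev_of_not (h0 u i h).2, sub_zero, abs_one])
    (fun u i k a b => of_not_not fun h =>
      (h0 u i a).2 (T.disj t i k _ _ u h (hs i) (hs k) (h0 u i a).1 (h0 u k b).1)) hα
  have f2 : (⋃ u ∈ (L.x t).support, {i | T.sc t i ≤ u}).Finite :=
    (L.x t).support.finite_toSet.biUnion fun u _ =>
      Set.Subsingleton.finite fun i hi k hk => one i k u hi hk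
  obtain ⟨i, hi, k, hk, hik⟩ := (f1.union f2).infinite_compl.nontrivial
  have g : ∀ i, i ∈ ({i | α < |f (j (e (s i) - e t))|} ∪
      ⋃ u ∈ (L.x t).support, {i | T.sc t i ≤ u})ᶜ → ev (T.sc t i) (L.x t) = 0 ∧
      ∀ s', T.sc t i ≤ s' → |f (j (L.p s')) - f (j (L.p t))| ≤ α := fun i hi => by
    refine ⟨ev_eq_zero fun u hu h => hi (Or.inr (mem_biUnion hu h)), fun s' h => ?_⟩
    rw [← map_sub, ← map_sub, Lab.p, Lab.p, ← L.eq t s' ((T.le_sc t i).trans h),
      add_sub_add_right_eq_sub]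
    exact hs' i (not_lt.1 fun a => hi (Or.inl a)) s' h
  exact ⟨_, _, T.le_sc t i, T.le_sc t k, far S (T.le_sc t i) (T.le_sc t k)
    (fun h => hik (one i k _ h le_rfl)) (fun h => hik (one i k _ le_rfl h)) (g i hi).1 (g k hk).1,
    (g i hi).2, (g k hk).2 _ le_rfl⟩

end cons

/-! ## The forest -/

/-- Copies of the tree `T` indexed by `R × ℕ`. -/
def Nd (R T : Type) : Type := (R × ℕ) × T

instance (R T : Type) [Preorder T] : Preorder (Nd R T) where
  le s t := s.1 = t.1 ∧ s.2 ≤ t.2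
  le_refl _ := ⟨rfl, le_rfl⟩
  le_trans _ _ _ h h' := ⟨h.1.trans h'.1, h.2.trans h'.2⟩

theorem node_bdd (W : Type) [LinearOrder W] (hW : ∀ a : ℕ → W, ∃ b, ∀ n, a n < b)
    (t : ℕ → Node W) (ht : ∀ n m, ∃ s, t n ≤ s ∧ t m ≤ s) : ∃ b, ∀ n, t n ≤ b := by
  classical
  obtain ⟨b, hb⟩ := hW fun n => (t n).1
  refine ⟨(b, fun x => if h : ∃ n, x < (t n).1 then (t h.choose).2 x else 0), fun n => ?_⟩
  refine ⟨(hb n).le, fun x hx => ?_⟩
  have h : ∃ n, x < (t n).1 := ⟨n, hx⟩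
  simp only [h, dif_pos]
  obtain ⟨s, h1, h2⟩ := ht n h.choose
  exact (h1.2 x hx).trans (h2.2 x h.choose_spec).symm

theorem exists_surj (T : Type) [Nonempty T] :
    ∃ c : ℝ × T → Nd (ℝ × T) T →₀ ℝ, Function.Surjective c := by
  have : Infinite (Nd (ℝ × T) T) := inferInstanceAs (Infinite (((ℝ × T) × ℕ) × T))
  have h0 : Cardinal.aleph0 ≤ Cardinal.mk (ℝ × T) := Cardinal.aleph0_le_mk _
  have h1 : Cardinal.mk ℝ ≤ Cardinal.mk (ℝ × T) :=
    Cardinal.mk_le_of_surjective Prod.fst_surjective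
  have h2 : Cardinal.mk T ≤ Cardinal.mk (ℝ × T) :=
    Cardinal.mk_le_of_surjective Prod.snd_surjective
  have h3 : Cardinal.mk (Nd (ℝ × T) T →₀ ℝ) ≤ Cardinal.mk (ℝ × T) := by
    rw [Cardinal.mk_finsupp_of_infinite]
    refine max_le ?_ h1
    change Cardinal.mk (ℝ × T) * Cardinal.mk ℕ * Cardinal.mk T ≤ _
    rw [Cardinal.mk_nat, Cardinal.mul_eq_left h0 h0 Cardinal.aleph0_ne_zero,
      Cardinal.mul_eq_left h0 h2 (Cardinal.mk_ne_zero T)]
  obtain ⟨g⟩ := h3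
  exact ⟨Function.invFun g, Function.invFun_surjective g.injective⟩

theorem main : ∃ (X : Type) (_ : NormedAddCommGroup X) (_ : NormedSpace ℝ X) (_ : CompleteSpace X),
    Good X ∈ residual (X →L[ℝ] ℝ) := by
  classical
  obtain ⟨W, _, ⟨w⟩, hW⟩ := exists_W
  obtain ⟨T⟩ := exists_tree W hW
  let t0 : Node W := (w, fun _ => 0)
  have : Nonempty (Node W) := ⟨t0⟩
  obtain ⟨c, hc⟩ := exists_surj (Node W)
  have bdd : ∀ t : ℕ → Nd (ℝ × Node W) (Node W), (∀ n m, ∃ s, t n ≤ s ∧ t m ≤ s) →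
      ∃ b, ∀ n, t n ≤ b := fun t ht => by
    obtain ⟨b, hb⟩ := node_bdd W hW (fun n => (t n).2) fun n m =>
      (ht n m).elim fun s hs => ⟨s.2, hs.1.2, hs.2.2⟩
    exact ⟨((t 0).1, b), fun n => ⟨(ht n 0).elim fun s hs => hs.1.1.trans hs.2.1.symm, hb n⟩⟩
  let T' : TreeData (Nd (ℝ × Node W) (Node W)) :=
    { sc := fun t i => (t.1, T.sc t.2 i)
      le_sc := fun t i => ⟨rfl, T.le_sc _ i⟩
      not_sc_le := fun t i h => T.not_sc_le _ i h.2
      disj := fun t i k a b u h ha hb hua hub =>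
        ⟨hua.1.trans ha.1.symm, T.disj _ i k _ _ _ h ha.2 hb.2 hua.2 hub.2⟩
      bdd := fun t ht => bdd t fun n m => ⟨t (max n m), monotone_nat_of_le_succ ht (le_max_left _ _),
        monotone_nat_of_le_succ ht (le_max_right _ _)⟩ }
  let L : Lab (Nd (ℝ × Node W) (Node W)) :=
    { x := fun t => if Q (c t.1.1) then c t.1.1 else 0
      q := fun t => by
        split_ifs with h
        · exact h
        · exact fun u => by simp
      eq := fun s t h => by rw [h.1]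
      all := fun v hv => by
        obtain ⟨r, rfl⟩ := hc v
        exact ⟨fun i => ((r, i), t0), fun i => if_pos hv,
          fun i k u h h' => congrArg Prod.snd (h.1.symm.trans h'.1)⟩ }
  obtain ⟨X, _, _, _, j, S⟩ := exists_sp L.Φ L.bound
  exact ⟨X, inferInstance, inferInstance, inferInstance,
    Data.good ⟨fun t => j (L.p t), norm_p S, norming S, peak S, split T' S, bdd⟩⟩

end Pool.Agent.P.MP_d71b46_an.Ball
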