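import Mathlib

set_option autoImplicit false

open BoundedContinuousFunction Metric Set Filter Topology

namespace Pool.Agent.P.MP_d71b46_an

/-- A countably closed, infinitely branching tree (as a preorder). -/
structure TreeData (N : Type) [Preorder N] where
  sc : N → ℕ → N
  le_sc : ∀ t i, t ≤ sc t i
  not_sc_le : ∀ t i, ¬ sc t i ≤ t
  disj : ∀ t i j a b u, i ≠ j → sc t i ≤ a → sc t j ≤ b → u ≤ a → u ≤ b → u ≤ t
  bdd : ∀ t : ℕ → N, (∀ n, t n ≤ t (n + 1)) → ∃ b, ∀ n, t n ≤ b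

/-- A normed space with a norming family of functionals `δ u` and the indicator vectors `e t`. -/
structure Rep (N : Type) [Preorder N] (X : Type) [NormedAddCommGroup X] [NormedSpace ℝ X] where
  e : N → X
  δ : N → X →L[ℝ] ℝ
  of_le : ∀ {u t}, u ≤ t → δ u (e t) = 1
  of_not_le : ∀ {u t}, ¬ u ≤ t → δ u (e t) = 0
  norm_δ_le : ∀ u, ‖δ u‖ ≤ 1
  norming : ∀ v, (∀ u, |δ u v| ≤ 1) → ‖v‖ ≤ 1

variable {N : Type} [Preorder N] {X : Type} [NormedAddCommGroup X] [NormedSpace ℝ X] (R : Rep N X)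

lemma norm_e_le (t : N) : ‖R.e t‖ ≤ 1 := by
  apply R.norming
  intro u
  by_cases h : u ≤ t
  · simp [R.of_le h]
  · simp [R.of_not_le h]

lemma abs_apply_e_le (f : X →L[ℝ] ℝ) (t : N) : |f (R.e t)| ≤ ‖f‖ := by
  have := f.le_opNorm (R.e t)
  rw [Real.norm_eq_abs] at this
  exact this.trans (mul_le_of_le_one_right (norm_nonneg _) (norm_e_le R t))

lemma abs_sub_apply_e_le {f g : X →L[ℝ] ℝ} {r : ℝ} (h : f ∈ closedBall g r) (t : N) :
    |f (R.e t) - g (R.e t)| ≤ r := by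
  rw [mem_closedBall, dist_eq_norm] at h
  have := abs_apply_e_le R (f - g) t
  simpa using this.trans h

lemma flat (T : TreeData N) (f : X →L[ℝ] ℝ) (t : N) {α : ℝ} (hα : 0 < α) :
    ∃ i, ∀ s, T.sc t i ≤ s → |f (R.e s) - f (R.e t)| ≤ α := by
  classical
  by_contra hcon
  push Not at hcon
  choose s hs hs' using hcon
  obtain ⟨n, hn⟩ := exists_nat_gt (‖f‖ / α)
  rw [div_lt_iff₀ hα] at hn
  let σ : ℕ → ℝ := fun i => if 0 ≤ f (R.e (s i)) - f (R.e t) then 1 else -1
  have hσ : ∀ i, |σ i| = 1 := by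
    intro i; simp only [σ]; split_ifs <;> simp
  have hσ' : ∀ i, σ i * (f (R.e (s i)) - f (R.e t)) = |f (R.e (s i)) - f (R.e t)| := by
    intro i; simp only [σ]; split_ifs with h
    · rw [one_mul, abs_of_nonneg h]
    · rw [abs_of_neg (not_le.1 h)]; ring
  let v : X := ∑ i ∈ Finset.range n, σ i • (R.e (s i) - R.e t)
  have hv : ‖v‖ ≤ 1 := by
    apply R.norming
    intro u
    have hvu : R.δ u v = ∑ i ∈ Finset.range n, σ i * (R.δ u (R.e (s i)) - R.δ u (R.e t)) := by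
      simp only [v, map_sum, map_smul, map_sub, smul_eq_mul]
    rw [hvu]
    by_cases hu : u ≤ t
    · have : ∀ i ∈ Finset.range n, σ i * (R.δ u (R.e (s i)) - R.δ u (R.e t)) = 0 := by
        intro i _
        rw [R.of_le hu, R.of_le (hu.trans ((T.le_sc t i).trans (hs i)))]; ring
      rw [Finset.sum_eq_zero this]; simp
    · by_cases hex : ∃ i ∈ Finset.range n, u ≤ s i
      · obtain ⟨i, hi, hui⟩ := hex
        rw [Finset.sum_eq_single_of_mem i hi]
        · rw [R.of_le hui, R.of_not_le hu, sub_zero, mul_one, hσ]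
        · intro j _ hji
          have : ¬ u ≤ s j := fun huj => hu (T.disj t j i _ _ u hji (hs j) (hs i) huj hui)
          rw [R.of_not_le this, R.of_not_le hu]; ring
      · push Not at hex
        have : ∀ i ∈ Finset.range n, σ i * (R.δ u (R.e (s i)) - R.δ u (R.e t)) = 0 := by
          intro i hi
          rw [R.of_not_le hu, R.of_not_le (hex i hi)]; ring
        rw [Finset.sum_eq_zero this]; simp
  have hfv : f v = ∑ i ∈ Finset.range n, |f (R.e (s i)) - f (R.e t)| := by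
    simp only [v, map_sum, map_smul, map_sub, smul_eq_mul, hσ']
  have h1 : (n : ℝ) * α ≤ f v := by
    rw [hfv]
    have := Finset.card_nsmul_le_sum (Finset.range n) (fun i => |f (R.e (s i)) - f (R.e t)|) α
      (fun i _ => (hs' i).le)
    simpa using this
  have h2 : f v ≤ ‖f‖ := by
    have := f.le_opNorm v
    rw [Real.norm_eq_abs] at this
    exact (le_abs_self _).trans (this.trans (mul_le_of_le_one_right (norm_nonneg _) hv))
  linarith

lemma near_max [Nonempty N] (f : X →L[ℝ] ℝ) {α : ℝ} (hα : 0 < α) :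
    ∃ u : N, ∀ s, f (R.e s) ≤ f (R.e u) + α := by
  have hb : BddAbove (range fun s : N => f (R.e s)) :=
    ⟨‖f‖, by rintro _ ⟨s, rfl⟩; exact (le_abs_self _).trans (abs_apply_e_le R f s)⟩
  obtain ⟨u, hu⟩ := exists_lt_of_lt_ciSup (f := fun s : N => f (R.e s))
    (show (⨆ s : N, f (R.e s)) - α < ⨆ s : N, f (R.e s) by linarith)
  exact ⟨u, fun s => by linarith [le_ciSup hb s]⟩

/-- a position of the game -/
structure St (R : Rep N X) where
  g : X →L[ℝ] ℝ
  r : ℝ
  t : N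
  hr : 0 < r
  inv : ∀ h ∈ closedBall g r, ∀ s, ¬ t ≤ s → h (R.e s) ≤ h (R.e t)

lemma core (T : TreeData N) (f : X →L[ℝ] ℝ) {ρ : ℝ} (hρ : 0 < ρ) (u : N)
    (hu : ∀ s, f (R.e s) ≤ f (R.e u) + ρ / 8) :
    ∃ σ : St R, σ.r ≤ ρ ∧ closedBall σ.g σ.r ⊆ closedBall f ρ ∧ u ≤ σ.t ∧
      ∀ h ∈ closedBall σ.g σ.r, ∀ s, σ.t ≤ s → |h (R.e s) - h (R.e σ.t)| ≤ ρ := by
  obtain ⟨i, hi⟩ := flat R T f u (show 0 < ρ / 8 by positivity)
  set t' := T.sc u i with ht'
  have hg : ∀ s, (f + (ρ / 2) • R.δ t') (R.e s) = f (R.e s) + ρ / 2 * R.δ t' (R.e s) := by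
    intro s; simp
  refine ⟨⟨f + (ρ / 2) • R.δ t', ρ / 8, t', by positivity, ?_⟩, ?_, ?_, T.le_sc u i, ?_⟩
  · intro h hh s hs
    have h1 := abs_le.1 (abs_sub_apply_e_le R hh s)
    have h2 := abs_le.1 (abs_sub_apply_e_le R hh t')
    have h3 := abs_le.1 (hi t' le_rfl)
    have h4 := hu s
    rw [hg, R.of_not_le hs] at h1
    rw [hg, R.of_le le_rfl] at h2
    linarith [h1.2, h2.1, h3.1]
  · change ρ / 8 ≤ ρ
    linarith
  · apply closedBall_subset_closedBall'
    change ρ / 8 + dist (f + (ρ / 2) • R.δ t') f ≤ ρ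
    rw [dist_eq_norm, add_sub_cancel_left, norm_smul, Real.norm_eq_abs, abs_of_pos (by positivity)]
    have := R.norm_δ_le t'
    nlinarith
  · intro h hh s hs
    change t' ≤ s at hs
    change h ∈ closedBall (f + (ρ / 2) • R.δ t') (ρ / 8) at hh
    change |h (R.e s) - h (R.e t')| ≤ ρ
    have h1 := abs_le.1 (abs_sub_apply_e_le R hh s)
    have h2 := abs_le.1 (abs_sub_apply_e_le R hh t')
    have h3 := abs_le.1 (hi t' le_rfl)
    have h4 := abs_le.1 (hi s hs)
    rw [hg, R.of_le hs] at h1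
    rw [hg, R.of_le le_rfl] at h2
    rw [abs_le]
    constructor <;> linarith [h1.1, h1.2, h2.1, h2.2, h3.1, h3.2, h4.1, h4.2]

lemma step [Nonempty N] (T : TreeData N) (σ : St R) {G : Set (X →L[ℝ] ℝ)}
    (hGo : IsOpen G) (hGd : Dense G) {η : ℝ} (hη : 0 < η) :
    ∃ σ' : St R, σ'.r ≤ η ∧ closedBall σ'.g σ'.r ⊆ closedBall σ.g σ.r ∩ G ∧ σ.t ≤ σ'.t ∧
      ∀ h ∈ closedBall σ'.g σ'.r, ∀ s, σ'.t ≤ s → |h (R.e s) - h (R.e σ'.t)| ≤ η := by
  obtain ⟨f, hf1, hf2⟩ := hGd.inter_open_nonempty (ball σ.g σ.r) isOpen_ball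
    (nonempty_ball.2 σ.hr)
  obtain ⟨ρ0, hρ0, hsub⟩ := Metric.nhds_basis_closedBall.mem_iff.1
    ((isOpen_ball.inter hGo).mem_nhds ⟨hf1, hf2⟩)
  have hρ : 0 < min ρ0 η := lt_min hρ0 hη
  obtain ⟨u0, hu0⟩ := near_max R f (show 0 < min ρ0 η / 8 by positivity)
  obtain ⟨u, htu, hu⟩ : ∃ u, σ.t ≤ u ∧ ∀ s, f (R.e s) ≤ f (R.e u) + min ρ0 η / 8 := by
    by_cases h : σ.t ≤ u0
    · exact ⟨u0, h, hu0⟩
    · refine ⟨σ.t, le_rfl, fun s => ?_⟩
      have := σ.inv f (ball_subset_closedBall hf1) u0 h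
      linarith [hu0 s]
  obtain ⟨σ', h1, h2, h3, h4⟩ := core R T f hρ u hu
  refine ⟨σ', h1.trans (min_le_right _ _), ?_, htu.trans h3,
    fun h hh s hs => (h4 h hh s hs).trans (min_le_right _ _)⟩
  refine h2.trans ((closedBall_subset_closedBall (min_le_left _ _)).trans (hsub.trans ?_))
  exact inter_subset_inter_left _ ball_subset_closedBall

theorem exists_attaining [Nonempty N] (T : TreeData N) (G : ℕ → Set (X →L[ℝ] ℝ))
    (hGo : ∀ n, IsOpen (G n)) (hGd : ∀ n, Dense (G n)) :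
    ∃ f : X →L[ℝ] ℝ, (∀ n, f ∈ G n) ∧ ∃ b : N, ∀ s, f (R.e s) ≤ f (R.e b) := by
  obtain ⟨u0, hu0⟩ := near_max R (0 : X →L[ℝ] ℝ) (show (0 : ℝ) < 1 / 8 by norm_num)
  obtain ⟨σ0, -⟩ := core R T 0 one_pos u0 hu0
  have hst : ∀ (n : ℕ) (σ : St R), ∃ σ' : St R, σ'.r ≤ 1 / ((n : ℝ) + 1) ∧
      closedBall σ'.g σ'.r ⊆ closedBall σ.g σ.r ∩ G n ∧ σ.t ≤ σ'.t ∧
      ∀ h ∈ closedBall σ'.g σ'.r, ∀ s, σ'.t ≤ s → |h (R.e s) - h (R.e σ'.t)| ≤ 1 / ((n : ℝ) + 1) :=
    fun n σ => step R T σ (hGo n) (hGd n) Nat.one_div_pos_of_nat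
  choose nx h1 h2 h3 h4 using hst
  let σ : ℕ → St R := fun n => Nat.rec σ0 (fun n σ => nx n σ) n
  have hσ : ∀ n, σ (n + 1) = nx n (σ n) := fun n => rfl
  let B : ℕ → Set (X →L[ℝ] ℝ) := fun n => closedBall (σ (n + 1)).g (σ (n + 1)).r
  have hanti : Antitone B := by
    apply antitone_nat_of_succ_le
    intro n
    exact (h2 (n + 1) (σ (n + 1))).trans inter_subset_left
  have hne : (⋂ n, B n).Nonempty := by
    apply Metric.nonempty_iInter_of_nonempty_biInter (fun n => isClosed_closedBall)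
      (fun n => isBounded_closedBall)
    · intro M
      refine ⟨(σ (M + 1)).g, ?_⟩
      simp only [mem_iInter]
      intro n hn
      exact hanti hn (mem_closedBall_self (σ (M + 1)).hr.le)
    · have ht : Tendsto (fun n : ℕ => 2 * (1 / ((n : ℝ) + 1))) atTop (𝓝 0) := by
        simpa using (tendsto_one_div_add_atTop_nhds_zero_nat (𝕜 := ℝ)).const_mul 2
      refine squeeze_zero (fun n => diam_nonneg) (fun n => ?_) ht
      refine (diam_closedBall (σ (n + 1)).hr.le).trans ?_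
      have := h1 n (σ n)
      rw [← hσ] at this
      linarith
  obtain ⟨f, hf⟩ := hne
  rw [mem_iInter] at hf
  refine ⟨f, fun n => (h2 n (σ n) (hf n)).2, ?_⟩
  obtain ⟨b, hb⟩ := T.bdd (fun n => (σ n).t) (fun n => h3 n (σ n))
  refine ⟨b, fun s => ?_⟩
  have key : ∀ n : ℕ, f (R.e s) ≤ f (R.e b) + 2 * (1 / ((n : ℝ) + 1)) := by
    intro n
    have hpos : (0 : ℝ) < 1 / ((n : ℝ) + 1) := Nat.one_div_pos_of_nat
    have a1 := abs_le.1 (h4 n (σ n) f (hf n) b (hb (n + 1)))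
    by_cases hs : (σ (n + 1)).t ≤ s
    · have a2 := abs_le.1 (h4 n (σ n) f (hf n) s hs)
      linarith [a1.1, a2.2]
    · have a2 := (σ (n + 1)).inv f (hf n) s hs
      rw [hσ] at a2
      linarith [a1.1]
  have ht : Tendsto (fun n : ℕ => f (R.e b) + 2 * (1 / ((n : ℝ) + 1))) atTop (𝓝 (f (R.e b))) := by
    simpa using ((tendsto_one_div_add_atTop_nhds_zero_nat (𝕜 := ℝ)).const_mul 2).const_add
      (f (R.e b))
  exact ge_of_tendsto' ht key

/-- the convex set -/
def K : Set X := closure (convexHull ℝ (range R.e))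

lemma e_mem_K (t : N) : R.e t ∈ K R := subset_closure (subset_convexHull _ _ (mem_range_self t))

lemma le_on_K (f : X →L[ℝ] ℝ) (c : ℝ) (h : ∀ s, f (R.e s) ≤ c) : ∀ x ∈ K R, f x ≤ c := by
  have h1 : IsClosed {x : X | f x ≤ c} := isClosed_le f.continuous continuous_const
  have h2 : Convex ℝ {x : X | f x ≤ c} := convex_halfSpace_le f.toLinearMap.isLinear c
  refine closure_minimal (convexHull_min ?_ h2) h1
  rintro _ ⟨s, rfl⟩
  exact h s

theorem not_dentable (T : TreeData N) :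
    ∀ x ∈ K R, x ∈ closure (convexHull ℝ (K R \ ball x (1 / 2))) := by
  intro x hx
  by_contra hcon
  obtain ⟨f, c, hf1, hf2⟩ := geometric_hahn_banach_closed_point
    (convex_convexHull ℝ _).closure isClosed_closure hcon
  have : ∃ t, c < f (R.e t) := by
    by_contra h
    push Not at h
    exact absurd (le_on_K R f c h x hx) (not_le.2 hf2)
  obtain ⟨t, ht⟩ := this
  obtain ⟨i, hi⟩ := flat R T f t (show 0 < (f (R.e t) - c) / 2 by linarith)
  have h1 := abs_le.1 (hi _ le_rfl)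
  have hin : ∀ s, c < f (R.e s) → R.e s ∈ ball x (1 / 2) := by
    intro s hs
    by_contra h
    have := hf1 (R.e s) (subset_closure (subset_convexHull _ _ ⟨e_mem_K R s, h⟩))
    linarith
  have a1 := hin t ht
  have a2 := hin (T.sc t i) (by linarith [h1.1])
  rw [mem_ball] at a1 a2
  have a3 : dist (R.e (T.sc t i)) (R.e t) < 1 := by
    have := dist_triangle_right (R.e (T.sc t i)) (R.e t) x
    linarith
  have a4 := (R.δ (T.sc t i)).le_opNorm (R.e (T.sc t i) - R.e t)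
  rw [map_sub, R.of_le le_rfl, R.of_not_le (T.not_sc_le t i), sub_zero, norm_one] at a4
  rw [dist_eq_norm] at a3
  have a5 := R.norm_δ_le (T.sc t i)
  nlinarith [norm_nonneg (R.e (T.sc t i) - R.e t), norm_nonneg (R.δ (T.sc t i))]

theorem not_meagre [Nonempty N] (T : TreeData N) :
    ¬ IsMeagre {f : X →L[ℝ] ℝ | ∃ x ∈ K R, ∀ y ∈ K R, f y ≤ f x} := by
  intro hm
  rw [IsMeagre, mem_residual_iff] at hm
  obtain ⟨S, hSo, hSd, hSc, hS⟩ := hm
  obtain ⟨G, hG⟩ := (hSc.insert univ).exists_eq_range (insert_nonempty _ _)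
  have hmem : ∀ n, G n ∈ insert univ S := fun n => hG ▸ mem_range_self n
  obtain ⟨f, hf, b, hb⟩ := exists_attaining R T G
    (fun n => by rcases hmem n with h | h; exacts [h ▸ isOpen_univ, hSo _ h])
    (fun n => by rcases hmem n with h | h; exacts [h ▸ dense_univ, hSd _ h])
  have : f ∈ ⋂₀ S := by
    intro A hA
    have : A ∈ range G := hG ▸ mem_insert_of_mem _ hA
    obtain ⟨n, rfl⟩ := this
    exact hf n
  exact hS this ⟨R.e b, e_mem_K R b, le_on_K R f _ hb⟩

lemma K_bounded : Bornology.IsBounded (K R) := by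
  refine (isBounded_closedBall (x := (0 : X)) (r := 1)).subset ?_
  refine closure_minimal (convexHull_min ?_ (convex_closedBall _ _)) isClosed_closedBall
  rintro _ ⟨s, rfl⟩
  simpa using norm_e_le R s

/-- a linear order in which every sequence is strictly bounded -/
theorem exists_W : ∃ (W : Type) (_ : LinearOrder W), Nonempty W ∧ ∀ a : ℕ → W, ∃ b, ∀ n, a n < b := by
  refine ⟨(Cardinal.aleph 1).ord.ToType, inferInstance, ?_, fun a => ?_⟩
  · rw [← Cardinal.mk_ne_zero_iff]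
    simpa using (Cardinal.aleph_pos 1).ne'
  by_contra hcon
  push Not at hcon
  have h1 : ∀ x : (Cardinal.aleph 1).ord.ToType, (Iic x).Countable := by
    intro x
    rw [← Iio_insert]
    apply Set.Countable.insert
    rw [← Cardinal.le_aleph0_iff_set_countable, ← Cardinal.lt_aleph_one_iff]
    simpa using Cardinal.mk_Iio_lt x
  have h2 : (univ : Set (Cardinal.aleph 1).ord.ToType).Countable := by
    refine (Set.countable_iUnion (fun n => h1 (a n))).mono ?_
    intro x _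
    obtain ⟨n, hn⟩ := hcon x
    exact mem_iUnion.2 ⟨n, hn⟩
  rw [← Cardinal.le_aleph0_iff_set_countable, ← Cardinal.lt_aleph_one_iff] at h2
  simp at h2

/-- nodes of the tree -/
def Node (W : Type) : Type := W × (W → ℕ)

instance (W : Type) [LinearOrder W] : Preorder (Node W) where
  le s t := s.1 ≤ t.1 ∧ ∀ x, x < s.1 → s.2 x = t.2 x
  le_refl _ := ⟨le_rfl, fun _ _ => rfl⟩
  le_trans _ _ _ h h' := ⟨h.1.trans h'.1, fun x hx => (h.2 x hx).trans (h'.2 x (hx.trans_le h.1))⟩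

lemma node_le {W : Type} [LinearOrder W] (s t : Node W) :
    s ≤ t ↔ s.1 ≤ t.1 ∧ ∀ x, x < s.1 → s.2 x = t.2 x := Iff.rfl

theorem exists_tree (W : Type) [LinearOrder W] (hW : ∀ a : ℕ → W, ∃ b, ∀ n, a n < b) :
    Nonempty (TreeData (Node W)) := by
  classical
  have h1 : ∀ a : W, ∃ b, a < b := fun a => (hW fun _ => a).imp fun b hb => hb 0
  choose nx hnx using h1
  refine ⟨⟨fun t i => (nx t.1, Function.update t.2 t.1 i), ?_, ?_, ?_, ?_⟩⟩
  · intro t i
    exact ⟨(hnx _).le, fun x hx => (Function.update_of_ne hx.ne _ _).symm⟩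
  · intro t i h
    exact absurd h.1 (not_le.2 (hnx _))
  · intro t i j a b u hij ha hb hua hub
    have ea : a.2 t.1 = i := by
      have := ha.2 t.1 (hnx _); simpa using this.symm
    have eb : b.2 t.1 = j := by
      have := hb.2 t.1 (hnx _); simpa using this.symm
    have hut : u.1 ≤ t.1 := by
      by_contra h
      have h' := not_le.1 h
      exact hij (by rw [← ea, ← eb, ← hua.2 _ h', ← hub.2 _ h'])
    refine ⟨hut, fun x hx => ?_⟩
    have hxt : x < t.1 := hx.trans_le hut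
    rw [hua.2 x hx, ← ha.2 x (hxt.trans (hnx _))]
    exact Function.update_of_ne hxt.ne _ _
  · intro t ht
    have hmono : Monotone t := monotone_nat_of_le_succ ht
    obtain ⟨b, hb⟩ := hW fun n => (t n).1
    refine ⟨(b, fun x => if h : ∃ n, x < (t n).1 then (t h.choose).2 x else 0), fun n => ?_⟩
    refine ⟨(hb n).le, fun x hx => ?_⟩
    have h : ∃ n, x < (t n).1 := ⟨n, hx⟩
    simp only [h, dif_pos]
    rcases le_total n h.choose with h' | h'
    · exact (hmono h').2 x hx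
    · exact ((hmono h').2 x h.choose_spec).symm

theorem exists_rep (N : Type) [Preorder N] [TopologicalSpace N] [DiscreteTopology N] :
    Nonempty (Rep N (N →ᵇ ℝ)) := by
  classical
  refine ⟨⟨fun t => ofNormedAddCommGroupDiscrete (fun u => if u ≤ t then (1 : ℝ) else 0) 1
    (fun u => by split_ifs <;> simp), fun u => BoundedContinuousFunction.evalCLM ℝ u,
    ?_, ?_, ?_, ?_⟩⟩
  · intro u t h
    simp [h]
  · intro u t h
    simp [h]
  · intro u
    refine ContinuousLinearMap.opNorm_le_bound _ zero_le_one (fun v => ?_)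
    rw [one_mul]
    exact v.norm_coe_le_norm u
  · intro v hv
    rw [norm_le zero_le_one]
    exact hv

theorem main' {N : Type} [Preorder N] [Nonempty N] (T : TreeData N)
    (X : Type) [NormedAddCommGroup X] [NormedSpace ℝ X] (R : Rep N X) :
    ∃ K : Set X, IsClosed K ∧ Bornology.IsBounded K ∧ Convex ℝ K ∧ K.Nonempty ∧
      (∃ ε > 0, ∀ x ∈ K, x ∈ closure (convexHull ℝ (K \ Metric.ball x ε))) ∧
      ¬ IsMeagre {f : X →L[ℝ] ℝ | ∃ x ∈ K, ∀ y ∈ K, f y ≤ f x} :=
  ⟨K R, isClosed_closure, K_bounded R, (convex_convexHull ℝ _).closure,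
    ⟨R.e (Classical.arbitrary N), e_mem_K R _⟩,
    ⟨1 / 2, by norm_num, not_dentable R T⟩, not_meagre R T⟩

theorem main :
    ∃ (X : Type) (_ : NormedAddCommGroup X) (_ : NormedSpace ℝ X) (_ : CompleteSpace X)
      (K : Set X),
      IsClosed K ∧ Bornology.IsBounded K ∧ Convex ℝ K ∧ K.Nonempty ∧
      (∃ ε > 0, ∀ x ∈ K, x ∈ closure (convexHull ℝ (K \ Metric.ball x ε))) ∧
      ¬ IsMeagre {f : X →L[ℝ] ℝ | ∃ x ∈ K, ∀ y ∈ K, f y ≤ f x} := by
  obtain ⟨W, _, hne, hW⟩ := exists_W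
  obtain ⟨T⟩ := exists_tree W hW
  obtain ⟨w⟩ := hne
  let t0 : Node W := (w, fun _ => 0)
  have : Nonempty (Node W) := ⟨t0⟩
  let _ : TopologicalSpace (Node W) := ⊥
  have : DiscreteTopology (Node W) := ⟨rfl⟩
  obtain ⟨R⟩ := exists_rep (Node W)
  exact ⟨Node W →ᵇ ℝ, inferInstance, inferInstance, inferInstance, main' T _ R⟩

end Pool.Agent.P.MP_d71b46_an
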